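import Mathlib

set_option autoImplicit false
set_option linter.unusedSectionVars false

/-!
The integral closure of the ring of integer-valued polynomials on an algebra.
-/

namespace Pool.Agent.Results.MP_457b0e_al.IntegralClosure

open Polynomial

/-- `Int_K(A)`: the polynomials `f` over `K` with `f(a) ∈ A` for all `a ∈ A`; here `A` is a
`D`-subalgebra of the `K`-algebra `B`. -/
def IntK (D K : Type*) {B : Type*} [CommRing D] [Field K] [Ring B] [Algebra K B] [Algebra D B]
    (A : Subalgebra D B) : Subring K[X] where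
  carrier := {f | ∀ a ∈ A, aeval a f ∈ A}
  mul_mem' := by
    intro f g hf hg a ha
    rw [map_mul]
    exact A.mul_mem (hf a ha) (hg a ha)
  one_mem' := by
    intro a _
    rw [map_one]
    exact A.one_mem
  add_mem' := by
    intro f g hf hg a ha
    rw [map_add]
    exact A.add_mem (hf a ha) (hg a ha)
  zero_mem' := by
    intro a _
    rw [map_zero]
    exact A.zero_mem
  neg_mem' := by
    intro f hf a ha
    rw [map_neg]
    exact A.neg_mem (hf a ha)

/-- uniform equality of powers of the variable modulo all monic polynomials of degree `n` -/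
theorem exists_pow (R : Type*) [CommRing R] (G : ℤ[X]) (hG : G.Monic)
    (hGR : ∀ x : R, aeval x G = 0) (N : ℤ) (hN : N ≠ 0) (hNR : (N : R) = 0) (n : ℕ) :
    ∃ a b : ℕ, b < a ∧ ∀ h : R[X], h.Monic → h.natDegree = n → h ∣ X ^ a - X ^ b := by
  let ι : Type _ := {h : R[X] // h.Monic ∧ h.natDegree = n}
  let W : Type _ := ∀ h : ι, AdjoinRoot h.1
  let T : W := fun h => AdjoinRoot.root h.1
  let c : ℕ → W := fun i h => AdjoinRoot.of h.1 (h.1.coeff i)
  have hc : ∀ i, IsIntegral ℤ (c i) := by
    intro i
    refine ⟨G, hG, ?_⟩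
    rw [← aeval_def]
    funext h
    have h1 : (aeval (c i) G) h = aeval (c i h) G := by
      have := aeval_algHom_apply (Pi.evalAlgHom ℤ (fun h : ι => AdjoinRoot h.1) h) (c i) G
      exact this.symm
    rw [h1]
    change aeval (AdjoinRoot.of h.1 (h.1.coeff i)) G = 0
    have h2 := aeval_algHom_apply (AdjoinRoot.of h.1).toIntAlgHom (h.1.coeff i) G
    change aeval (AdjoinRoot.of h.1 (h.1.coeff i)) G = AdjoinRoot.of h.1 (aeval (h.1.coeff i) G)
      at h2
    rw [h2, hGR, map_zero]
  let c' : ℕ → integralClosure ℤ W := fun i => ⟨c i, hc i⟩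
  have hT' : IsIntegral (integralClosure ℤ W) T := by
    refine ⟨X ^ n + ∑ i ∈ Finset.range n, C (c' i) * X ^ i, ?_, ?_⟩
    · rcases subsingleton_or_nontrivial (integralClosure ℤ W) with h0 | h0
      · exact monic_of_subsingleton _
      · apply monic_X_pow_add
        rw [← Finset.sum_congr rfl fun i _ => (C_mul_X_pow_eq_monomial (a := c' i) (n := i)).symm]
        refine (degree_sum_le _ _).trans_lt ?_
        rw [Finset.sup_lt_iff (by exact_mod_cast WithBot.bot_lt_coe n)]
        intro i hi
        rw [Finset.mem_range] at hi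
        exact (degree_monomial_le _ _).trans_lt (by exact_mod_cast hi)
    · rw [eval₂_add, eval₂_X_pow, eval₂_finsetSum]
      funext h
      have h1 := h.2.1.as_sum
      rw [h.2.2] at h1
      have h2 := AdjoinRoot.eval₂_root h.1
      have h3 : eval₂ (AdjoinRoot.of h.1) (AdjoinRoot.root h.1) (X ^ n + ∑ i ∈ Finset.range n,
        C (h.1.coeff i) * X ^ i) = 0 := by
        rw [← h1]; exact h2
      rw [eval₂_add, eval₂_X_pow, eval₂_finsetSum] at h3
      rw [Pi.add_apply, Finset.sum_apply, Pi.pow_apply, Pi.zero_apply, ← h3]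
      congr 1
      refine Finset.sum_congr rfl fun i _ => ?_
      rw [eval₂_mul, eval₂_mul, eval₂_C, eval₂_C, eval₂_X_pow, eval₂_X_pow]
      rfl
  have hT : IsIntegral ℤ T := isIntegral_trans T hT'
  -- the subring generated by `T` is finite
  have hfg : Module.Finite ℤ (Algebra.adjoin ℤ {T}) := ⟨by
    have := hT.fg_adjoin_singleton
    exact (Submodule.fg_top _).2 this⟩
  have hNW : ∀ w : W, N • w = 0 := by
    intro w
    funext h
    rw [Pi.smul_apply, zsmul_eq_mul, Pi.zero_apply]
    have : ((N : ℤ) : AdjoinRoot h.1) = AdjoinRoot.of h.1 (N : R) := by rw [map_intCast]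
    rw [this, hNR, map_zero, zero_mul]
  have htors : Module.IsTorsion ℤ (Algebra.adjoin ℤ {T}) := by
    rintro ⟨w, hw⟩
    refine ⟨⟨N, mem_nonZeroDivisors_of_ne_zero hN⟩, ?_⟩
    apply Subtype.ext
    exact hNW w
  have hfin : Finite (Algebra.adjoin ℤ {T}) := Module.finite_of_fg_torsion _ htors
  have hmem : T ∈ Algebra.adjoin ℤ {T} := Algebra.subset_adjoin rfl
  obtain ⟨a, b, hab, hpow⟩ := Finite.exists_ne_map_eq_of_infinite
    (fun k : ℕ => (⟨T, hmem⟩ : Algebra.adjoin ℤ {T}) ^ k)
  have hpow' : T ^ a = T ^ b := congrArg Subtype.val hpow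
  have key : ∀ a b : ℕ, T ^ a = T ^ b → ∀ h : R[X], h.Monic → h.natDegree = n →
      h ∣ X ^ a - X ^ b := by
    intro a b hab h hm hd
    have h1 := congrFun hab ⟨h, hm, hd⟩
    rw [Pi.pow_apply, Pi.pow_apply] at h1
    rw [← AdjoinRoot.mk_eq_zero, map_sub, map_pow, map_pow, AdjoinRoot.mk_X, sub_eq_zero]
    exact h1
  rcases lt_or_gt_of_ne hab with h | h
  · exact ⟨b, a, h, key b a hpow'.symm⟩
  · exact ⟨a, b, h, key a b hpow'⟩

section

variable (D K : Type*) [CommRing D] [IsDomain D] [Field K] [Algebra D K] [IsFractionRing D K]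

/-- the ideal of the denominators of a polynomial -/
def den (f : K[X]) : Ideal D where
  carrier := {e | ∀ i, ∃ y : D, algebraMap D K e * f.coeff i = algebraMap D K y}
  add_mem' := by
    intro a b ha hb i
    obtain ⟨y, hy⟩ := ha i
    obtain ⟨z, hz⟩ := hb i
    exact ⟨y + z, by rw [map_add, add_mul, hy, hz, map_add]⟩
  zero_mem' := by
    intro i
    exact ⟨0, by simp⟩
  smul_mem' := by
    intro c a ha i
    obtain ⟨y, hy⟩ := ha i
    exact ⟨c * y, by rw [smul_eq_mul, map_mul, mul_assoc, hy, map_mul]⟩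

theorem vandermonde_mem (f : K[X])
    (hf : ∀ x : D, ∃ y : D, f.eval (algebraMap D K x) = algebraMap D K y) (m : ℕ)
    (hm : f.natDegree < m) (d : Fin m → D) : (Matrix.vandermonde d).det ∈ den D K f := by
  intro i
  by_cases hi : i < m
  · choose y hy using hf
    let V := Matrix.vandermonde d
    have h1 : (V.map (algebraMap D K)).mulVec (fun j => f.coeff j) =
        fun j => algebraMap D K (y (d j)) := by
      funext j
      rw [← hy, Matrix.mulVec, dotProduct, eval_eq_sum_range' (n := m) hm, Finset.sum_range]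
      refine Finset.sum_congr rfl fun k _ => ?_
      change algebraMap D K (d j ^ (k : ℕ)) * f.coeff k = f.coeff k * _
      rw [map_pow, mul_comm]
    have h2 : (V.map (algebraMap D K)).det • (fun j : Fin m => f.coeff j) =
        (V.map (algebraMap D K)).adjugate.mulVec (fun j => algebraMap D K (y (d j))) := by
      rw [← h1, Matrix.mulVec_mulVec, Matrix.adjugate_mul, Matrix.smul_mulVec,
        Matrix.one_mulVec]
    have h3 := congrFun h2 ⟨i, hi⟩
    refine ⟨V.adjugate.mulVec (fun j => y (d j)) ⟨i, hi⟩, ?_⟩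
    have h4 : (V.map (algebraMap D K)).det = algebraMap D K V.det := by
      rw [RingHom.map_det]; rfl
    have h5 : (V.map (algebraMap D K)).adjugate = V.adjugate.map (algebraMap D K) := by
      have := RingHom.map_adjugate (algebraMap D K) V
      simpa using this.symm
    rw [h4, h5] at h3
    simp only [Pi.smul_apply, smul_eq_mul] at h3
    rw [h3, Matrix.mulVec, dotProduct, Matrix.mulVec, dotProduct, map_sum]
    refine Finset.sum_congr rfl fun k _ => ?_
    rw [Matrix.map_apply, map_mul]
  · refine ⟨0, ?_⟩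
    rw [coeff_eq_zero_of_natDegree_lt (by omega), mul_zero, map_zero]

/-- the Vandermonde determinant of the powers of the variable -/
noncomputable def vpoly (m : ℕ) : ℤ[X] :=
  ∏ i : Fin m, ∏ j ∈ Finset.Ioi i, (X ^ (j : ℕ) - X ^ (i : ℕ))

theorem vpoly_monic (m : ℕ) : (vpoly m).Monic := by
  refine monic_prod_of_monic _ _ fun i _ => monic_prod_of_monic _ _ fun j hj => ?_
  rw [Finset.mem_Ioi] at hj
  refine (monic_X_pow _).sub_of_left ?_
  rw [degree_X_pow, degree_X_pow]
  exact_mod_cast hj

theorem vpoly_eval_two (m : ℕ) : (vpoly m).eval 2 ≠ 0 := by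
  rw [vpoly, eval_prod]
  refine Finset.prod_ne_zero_iff.2 fun i _ => ?_
  rw [eval_prod]
  refine Finset.prod_ne_zero_iff.2 fun j hj => ?_
  rw [Finset.mem_Ioi] at hj
  rw [eval_sub, eval_pow, eval_pow, eval_X, sub_ne_zero]
  intro h
  have := pow_right_injective₀ (a := (2 : ℤ)) (by norm_num) (by norm_num) h
  exact absurd this (by omega)

theorem aeval_vpoly_mem (f : K[X])
    (hf : ∀ x : D, ∃ y : D, f.eval (algebraMap D K x) = algebraMap D K y) (m : ℕ)
    (hm : f.natDegree < m) (x : D) : aeval x (vpoly m) ∈ den D K f := by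
  have h1 := vandermonde_mem D K f hf m hm (fun i => x ^ (i : ℕ))
  rw [Matrix.det_vandermonde] at h1
  rw [vpoly, map_prod]
  convert h1 using 3 with i
  rw [map_prod]
  refine Finset.prod_congr rfl fun j _ => ?_
  rw [map_sub, map_pow, map_pow, aeval_X]

variable {B : Type*} [Ring B] [Nontrivial B] [Algebra K B] [Algebra D B] [IsScalarTower D K B]

theorem smul_aeval_mem (A : Subalgebra D B) (f : K[X]) (e : D) (he : e ∈ den D K f) (a : B)
    (ha : a ∈ A) : e • aeval a f ∈ A := by
  have h1 : C (algebraMap D K e) * f ∈ lifts (algebraMap D K) := by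
    rw [lifts_iff_coeff_lifts]
    intro i
    obtain ⟨y, hy⟩ := he i
    rw [coeff_C_mul]
    exact ⟨y, hy.symm⟩
  obtain ⟨g, hg⟩ := h1
  rw [coe_mapRingHom] at hg
  have h2 : e • aeval a f = aeval a g := by
    rw [← aeval_map_algebraMap K a g, hg, map_mul, aeval_C, ← IsScalarTower.algebraMap_apply,
      Algebra.smul_def]
  rw [h2, ← aeval_subalgebra_coe g A ⟨a, ha⟩]
  exact (aeval (⟨a, ha⟩ : A) g).2

theorem smul_pow_mem (A : Subalgebra D B) (I : Ideal D) (β : B) (h : ∀ e ∈ I, e • β ∈ A) (j : ℕ) :
    ∀ e ∈ I ^ j, e • β ^ j ∈ A := by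
  induction j with
  | zero =>
    intro e _
    rw [pow_zero, ← Algebra.algebraMap_eq_smul_one]
    exact A.algebraMap_mem e
  | succ j ih =>
    intro e he
    rw [pow_succ] at he
    induction he using Submodule.mul_induction_on' with
    | mem_mul_mem x hx y hy =>
      have h1 := A.mul_mem (ih x hx) (h y hy)
      rw [smul_mul_smul_comm] at h1
      rw [pow_succ]
      exact h1
    | add x hx y hy h1 h2 =>
      rw [add_smul]
      exact A.add_mem h1 h2

variable [IsIntegrallyClosed D]

theorem mem_of_integral (f : K[X])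
    (hf : ∀ x : D, IsIntegral D (aeval (algebraMap D B x) f)) :
    ∀ x : D, ∃ y : D, f.eval (algebraMap D K x) = algebraMap D K y := by
  intro x
  have h2 := hf x
  rw [IsScalarTower.algebraMap_apply D K B, aeval_algebraMap_apply] at h2
  have h6 : IsIntegral D (f.eval (algebraMap D K x)) :=
    (isIntegral_algebraMap_iff (FaithfulSMul.algebraMap_injective K B)).1 h2
  obtain ⟨y, hy⟩ := IsIntegrallyClosed.isIntegral_iff.1 h6
  exact ⟨y, hy.symm⟩

/-- integral elements are roots of monic polynomials of degree `n = dim B` -/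
theorem exists_monic [Module.Finite K B] (β : B) (hβ : IsIntegral D β) :
    ∃ h : D[X], h.Monic ∧ h.natDegree = Module.finrank K B ∧ aeval β h = 0 := by
  have hβK : IsIntegral K β := hβ.tower_top
  obtain ⟨g, hg, hgβ⟩ := id hβ
  have h1 : minpoly K β ∣ g.map (algebraMap D K) := by
    apply minpoly.dvd
    rw [aeval_map_algebraMap, aeval_def, hgβ]
  obtain ⟨g', hg'⟩ := IsIntegrallyClosed.eq_map_mul_C_of_dvd K hg h1
  rw [(minpoly.monic hβK).leadingCoeff, C_1, mul_one] at hg'
  have hinj := IsFractionRing.injective D K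
  have h2 : g'.Monic := monic_of_injective hinj (by rw [hg']; exact minpoly.monic hβK)
  have h3 : g'.natDegree ≤ Module.finrank K B := by
    rw [← natDegree_map_eq_of_injective hinj, hg']
    exact minpoly.natDegree_le β
  refine ⟨X ^ (Module.finrank K B - g'.natDegree) * g', (monic_X_pow _).mul h2, ?_, ?_⟩
  · rw [(monic_X_pow _).natDegree_mul h2, natDegree_X_pow]
    omega
  · rw [map_mul, ← aeval_map_algebraMap K β g', hg', minpoly.aeval, mul_zero]

/-- the main step: for `f ∈ Int_K(A, A')` some difference `f ^ a - f ^ b` is in `Int_K(A)` -/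
theorem exists_sub_mem [Module.Finite K B] (A : Subalgebra D B) (f : K[X])
    (hf : ∀ a ∈ A, IsIntegral D (aeval a f)) : ∃ a b : ℕ, b < a ∧ f ^ a - f ^ b ∈ IntK D K A := by
  set n := Module.finrank K B with hn
  set I := den D K f with hI
  have hD := mem_of_integral D K (B := B) f (fun x => hf _ (A.algebraMap_mem x))
  have hv : ∀ x : D, aeval x (vpoly (f.natDegree + 1)) ∈ I := fun x =>
    aeval_vpoly_mem D K f hD (f.natDegree + 1) (Nat.lt_succ_self _) x
  obtain ⟨a, b, hab, hpow⟩ := exists_pow (D ⧸ I ^ n) (vpoly (f.natDegree + 1) ^ n)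
    ((vpoly_monic _).pow n) (by
      intro x
      obtain ⟨x, rfl⟩ := Ideal.Quotient.mk_surjective x
      have h1 := aeval_algHom_apply (Ideal.Quotient.mk (I ^ n)).toIntAlgHom x
        (vpoly (f.natDegree + 1) ^ n)
      change aeval (Ideal.Quotient.mk (I ^ n) x) _ = Ideal.Quotient.mk (I ^ n) (aeval x _) at h1
      rw [h1, Ideal.Quotient.eq_zero_iff_mem, map_pow]
      exact Ideal.pow_mem_pow (hv x) n)
    (((vpoly (f.natDegree + 1)).eval 2) ^ n) (pow_ne_zero _ (vpoly_eval_two _)) (by
      have h1 : (((vpoly (f.natDegree + 1)).eval 2 : ℤ) : D) =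
          aeval (2 : D) (vpoly (f.natDegree + 1)) := by
        have h2 := aeval_algebraMap_apply D (2 : ℤ) (vpoly (f.natDegree + 1))
        rw [coe_aeval_eq_eval] at h2
        have h3 : algebraMap ℤ D 2 = 2 := by simp
        rw [h3] at h2
        rw [h2]
        rfl
      have h4 : ((((vpoly (f.natDegree + 1)).eval 2) ^ n : ℤ) : D ⧸ I ^ n) =
          Ideal.Quotient.mk (I ^ n) ((((vpoly (f.natDegree + 1)).eval 2 : ℤ) : D) ^ n) := by
        rw [map_pow, map_intCast, Int.cast_pow]
      rw [h4, h1, Ideal.Quotient.eq_zero_iff_mem]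
      exact Ideal.pow_mem_pow (hv 2) n) n
  refine ⟨a, b, hab, fun α hα => ?_⟩
  set β := aeval α f with hβ
  obtain ⟨h, hm, hd, hz⟩ := exists_monic D K β (hf α hα)
  -- division with remainder
  set r := (X ^ a - X ^ b : D[X]) %ₘ h with hr
  have hrβ : aeval β r = β ^ a - β ^ b := by
    have h1 := modByMonic_add_div (X ^ a - X ^ b : D[X]) h
    have h2 := congrArg (aeval β) h1
    rw [map_add, map_mul, hz, zero_mul, add_zero, map_sub, map_pow, map_pow, aeval_X] at h2
    exact h2
  have hrn : r.natDegree < n ∨ r = 0 := by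
    rcases eq_or_ne r 0 with h0 | h0
    · exact Or.inr h0
    · left
      have := degree_modByMonic_lt (X ^ a - X ^ b : D[X]) hm
      have h3 := natDegree_lt_natDegree h0 this
      rwa [hd] at h3
  have hrI : ∀ i, r.coeff i ∈ I ^ n := by
    intro i
    have h1 : (h.map (Ideal.Quotient.mk (I ^ n))) ∣ X ^ a - X ^ b := by
      rcases subsingleton_or_nontrivial (D ⧸ I ^ n) with h0 | h0
      · exact ⟨0, Subsingleton.elim _ _⟩
      · exact hpow _ (hm.map _) (by rw [hm.natDegree_map, hd])
    have h2 : r.map (Ideal.Quotient.mk (I ^ n)) = 0 := by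
      rw [hr, map_modByMonic _ hm, Polynomial.map_sub, Polynomial.map_pow, Polynomial.map_pow,
        map_X]
      exact (modByMonic_eq_zero_iff_dvd (hm.map _)).2 h1
    have h3 := congrArg (fun p => coeff p i) h2
    simp only [coeff_map, coeff_zero] at h3
    exact Ideal.Quotient.eq_zero_iff_mem.1 h3
  rw [map_sub, map_pow, map_pow, ← hβ, ← hrβ]
  rcases hrn with hrn | hrn
  · rw [aeval_eq_sum_range' hrn]
    refine A.sum_mem fun j hj => ?_
    rw [Finset.mem_range] at hj
    exact smul_pow_mem D A I β (fun e he => smul_aeval_mem D K A f e he α hα) j _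
      (Ideal.pow_le_pow_right hj.le (hrI j))
  · rw [hrn, map_zero]
    exact A.zero_mem

/-- the first inclusion, within `K[X]` -/
theorem isIntegral_of_mem [Module.Finite K B] (A : Subalgebra D B) (f : K[X])
    (hf : ∀ a ∈ A, IsIntegral D (aeval a f)) : IsIntegral (IntK D K A) f := by
  obtain ⟨a, b, hab, h⟩ := exists_sub_mem D K A f hf
  refine ⟨X ^ a - (X ^ b + C ⟨f ^ a - f ^ b, h⟩), ?_, ?_⟩
  · refine (monic_X_pow a).sub_of_left ?_
    rw [degree_X_pow]
    refine (degree_add_le _ _).trans_lt (max_lt ?_ ?_)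
    · rw [degree_X_pow]; exact_mod_cast hab
    · refine degree_C_le.trans_lt ?_
      exact_mod_cast (by omega : 0 < a)
  · rw [eval₂_sub, eval₂_add, eval₂_X_pow, eval₂_X_pow, eval₂_C]
    change f ^ a - (f ^ b + (f ^ a - f ^ b)) = 0
    ring

/-- the second inclusion, within `K[X]` -/
theorem mem_of_isIntegral (A : Subalgebra D B) (hA : Module.Finite D A) (f : K[X])
    (hf : IsIntegral (IntK D K A) f) : ∀ a ∈ A, IsIntegral D (aeval a f) := by
  intro a ha
  let J : Ideal K[X] := RingHom.ker (aeval a : K[X] →ₐ[K] B)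
  let C' : Type _ := K[X] ⧸ J
  let ψ : C' →ₐ[D] B := Ideal.Quotient.liftₐ J ((aeval a : K[X] →ₐ[K] B).restrictScalars D)
    (fun x hx => hx)
  have hψ : Function.Injective ψ := by
    rw [injective_iff_map_eq_zero]
    intro x hx
    obtain ⟨x, rfl⟩ := Ideal.Quotient.mk_surjective x
    exact Ideal.Quotient.eq_zero_iff_mem.2 hx
  have hmk : ∀ g : K[X], ψ (Ideal.Quotient.mk J g) = aeval a g := fun g => rfl
  have h1 : ∀ g ∈ IntK D K A, IsIntegral D (Ideal.Quotient.mk J g : C') := by
    intro g hg
    rw [← isIntegral_algHom_iff ψ hψ, hmk]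
    have h4 : IsIntegral D (⟨_, hg a ha⟩ : A) := IsIntegral.of_finite D _
    exact h4.map A.val
  let φ : IntK D K A →+* integralClosure D C' :=
    { toFun := fun g => ⟨Ideal.Quotient.mk J g.1, h1 g.1 g.2⟩
      map_one' := Subtype.ext (map_one _)
      map_mul' := fun g g' => Subtype.ext (map_mul _ _ _)
      map_zero' := Subtype.ext (map_zero _)
      map_add' := fun g g' => Subtype.ext (map_add _ _ _) }
  have h2 : IsIntegral (integralClosure D C') (Ideal.Quotient.mk J f : C') := by
    refine IsIntegral.map_of_comp_eq φ (Ideal.Quotient.mk J) ?_ hf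
    rfl
  have h3 : IsIntegral D (Ideal.Quotient.mk J f : C') := isIntegral_trans _ h2
  rw [← hmk]
  exact h3.map ψ

end

/-- Let `D` be an integrally closed domain with fraction field `K`, let `B` be a `K`-algebra and
`A` a `D`-subalgebra of `B` which is finitely generated as a `D`-module and spans `B` over `K`
(so `B = A ⊗_D K`). Then an element of the fraction field `L = K(X)` of `K[X]` is integral over
`Int_K(A)` if and only if it is a polynomial `f` over `K` which maps every element of `A` to an
element of `B` integral over `D`. -/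
theorem result (D K B L : Type*) [CommRing D] [IsDomain D] [IsIntegrallyClosed D] [Field K]
    [Algebra D K] [IsFractionRing D K] [Ring B] [Nontrivial B] [Algebra K B] [Algebra D B]
    [IsScalarTower D K B] [Field L] [Algebra K[X] L] [IsFractionRing K[X] L]
    (A : Subalgebra D B) (hA : Module.Finite D A) (hAB : Submodule.span K (A : Set B) = ⊤)
    (φ : L) :
    IsIntegral (IntK D K A) φ ↔
      ∃ f : K[X], (∀ a ∈ A, IsIntegral D (aeval a f)) ∧ algebraMap K[X] L f = φ := by
  have hfin : Module.Finite K B := by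
    classical
    obtain ⟨s, hs⟩ := hA
    refine ⟨s.image Subtype.val, ?_⟩
    rw [eq_top_iff, ← hAB, Submodule.span_le]
    intro a ha
    have h1 : (⟨a, ha⟩ : A) ∈ Submodule.span D (s : Set A) := by rw [hs]; trivial
    have h2 : a ∈ (Submodule.span D (s : Set A)).map A.val.toLinearMap := ⟨_, h1, rfl⟩
    rw [Submodule.map_span] at h2
    rw [Finset.coe_image]
    exact Submodule.span_le_restrictScalars D K _ h2
  constructor
  · intro h
    have h1 : IsIntegral K[X] φ := h.tower_top
    obtain ⟨f, hf⟩ := IsIntegrallyClosed.isIntegral_iff.1 h1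
    refine ⟨f, ?_, hf⟩
    rw [← hf] at h
    exact mem_of_isIntegral D K A hA f
      ((isIntegral_algebraMap_iff (IsFractionRing.injective K[X] L)).1 h)
  · rintro ⟨f, hf, rfl⟩
    exact (isIntegral_algebraMap_iff (IsFractionRing.injective K[X] L)).2
      (isIntegral_of_mem D K A f hf)

end Pool.Agent.Results.MP_457b0e_al.IntegralClosure
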